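import Pool.Agent.N436.DF.Stm3
import Pool.Agent.N878.DF.Addm

set_option autoImplicit false

/-!
# Project DF, part DH/14 (helper724): a non-colourable sparse system from an exactly-one set
-/

namespace Pool.Agent.N724.DF

open Finset Pool.Agent.N436.DF

variable {V : Type} [DecidableEq V]

/-- the conclusion -/
def Goal (H : Hub V) (Z : Finset V) : Prop :=
  ∃ (H' : Hub V) (S' : Finset V), Ok P13 H' ∧ Hyp P13 H' S' ∧ ¬ Col H' S' ∧ eE H' S' = eE H Z

def ExOne (H : Hub V) (Z T : Finset V) : Prop :=
  ∀ f p, ColBy H Z f p → (∃ x ∈ T, f x = true ∧ ∀ y ∈ T, f y = true → y = x) ∧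
    ∀ x ∈ T, H.c (f x) x ≤ load H Z f p x

/-- one unit less paid by `x` -/
theorem reduce (H : Hub V) (Z T : Finset V) (hTZ : T ⊆ Z) (hE : ExOne H Z T) (f : V → Bool)
    (p : V → V → ℤ) (hc : ColBy H Z f p) (x y : V) (hx : x ∈ T) (hy : y ∈ T) (hxy : x ≠ y)
    (hf : f x ≠ f y) (hp : 1 ≤ p x y) (hm : H.m x y + 1 ≤ p x y + p y x)
    (hm' : H.m y x = H.m x y) : False := by
  let p' : V → V → ℤ := fun u v => if u = x ∧ v = y then p u v - 1 else p u v
  have hle : ∀ u v, p' u v ≤ p u v := by
    intro u v
    show (if u = x ∧ v = y then p u v - 1 else p u v) ≤ p u v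
    split_ifs <;> omega
  have hpxy : p' x y = p x y - 1 := by
    show (if x = x ∧ y = y then p x y - 1 else p x y) = _
    simp
  have hne : ∀ u v, ¬ (u = x ∧ v = y) → p' u v = p u v := by
    intro u v h
    show (if u = x ∧ v = y then p u v - 1 else p u v) = _
    rw [if_neg h]
  have hload : ∀ u, load H Z f p' u ≤ load H Z f p u := by
    intro u
    unfold load
    refine Finset.sum_le_sum fun v _ => ?_
    split_ifs
    · exact le_rfl
    · exact hle u v
  have hcol : ColBy H Z f p' := by
    refine ⟨?_, ?_, ?_⟩
    · intro u v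
      by_cases h : u = x ∧ v = y
      · obtain ⟨rfl, rfl⟩ := h
        rw [hpxy]; omega
      · rw [hne u v h]; exact hc.nn u v
    · intro u hu v hv huv
      have h0 := hc.pay u hu v hv huv
      by_cases h : u = x ∧ v = y
      · obtain ⟨rfl, rfl⟩ := h
        rw [hpxy, hne v u (fun h => hxy h.2)]
        omega
      · by_cases h' : v = x ∧ u = y
        · obtain ⟨rfl, rfl⟩ := h'
          rw [hpxy, hne u v h, hm']
          omega
        · rw [hne u v h, hne v u h']
          exact h0
    · intro u hu
      exact (hload u).trans (hc.cap u hu)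
  have h1 := (hE f p' hcol).2 x hx
  have h2 := hc.cap x (hTZ hx)
  have h3 : load H Z f p' x + 1 ≤ load H Z f p x := by
    unfold load
    rw [← Finset.add_sum_erase Z _ (hTZ hy), ← Finset.add_sum_erase Z _ (hTZ hy)]
    have h4 : ∑ v ∈ Z.erase y, (if f x = f v then H.r x v else p' x v) ≤
        ∑ v ∈ Z.erase y, (if f x = f v then H.r x v else p x v) := by
      refine Finset.sum_le_sum fun v _ => ?_
      split_ifs
      · exact le_rfl
      · exact hle x v
    rw [if_neg hf, if_neg hf, hpxy]
    omega
  omega

theorem base (hb : S3_base) (H : Hub V) (Z T : Finset V) (hO : Ok P13 H) (hTZ : T ⊆ Z)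
    (hT : T.card = 2) (hh : ∀ C, C ⊆ Z → C.Nonempty → 3 ≤ hp H C) (hE : ExOne H Z T) :
    Goal H Z := by
  obtain ⟨a, b, hab, rfl⟩ := Finset.card_eq_two.1 hT
  have ha : a ∈ ({a, b} : Finset V) := by simp
  have hb' : b ∈ ({a, b} : Finset V) := by simp
  have hm0 := hO.m_nn a b
  obtain ⟨q1, q2, -, -⟩ := Pool.Agent.N878.DF.addm_ok V P13 H 1 a b hO hab (by omega)
  obtain ⟨b1, -, -, -, -⟩ := hb V H hO
  refine ⟨addm H 1 a b, Z, q1, ?_, ?_, rfl⟩
  · intro X hX hXn
    rw [q2 X, b1 X]
    have h1 := hh X hX hXn
    show -(2 * (3 : ℤ)) < 2 * hp H X - (if a ∈ X ∧ b ∈ X then 2 * (5 : ℤ) * 1 else 0)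
    split_ifs <;> omega
  · rintro ⟨f, p, hc⟩
    have hmle : ∀ u v, H.m u v ≤ (addm H 1 a b).m u v := by
      intro u v
      show H.m u v ≤ if (u = a ∧ v = b) ∨ (u = b ∧ v = a) then H.m u v + 1 else H.m u v
      split_ifs <;> omega
    have hc' : ColBy H Z f p := by
      refine ⟨hc.nn, ?_, ?_⟩
      · intro u hu v hv huv
        exact (hmle u v).trans (hc.pay u hu v hv huv)
      · intro u hu
        exact hc.cap u hu
    obtain ⟨⟨x, hx, hfx, hux⟩, hsat⟩ := hE f p hc'
    have hfab : f a ≠ f b := by
      intro h
      have hxa : f a = true := by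
        rcases Finset.mem_insert.1 hx with rfl | h2
        · exact hfx
        · rw [Finset.mem_singleton] at h2
          subst h2
          rw [h]; exact hfx
      have hxb : f b = true := by rw [← h]; exact hxa
      exact hab ((hux a ha hxa).trans (hux b hb' hxb).symm)
    have hpay := hc.pay a (hTZ ha) b (hTZ hb') hfab
    have hmab : (addm H 1 a b).m a b = H.m a b + 1 := by
      show (if (a = a ∧ b = b) ∨ (a = b ∧ b = a) then H.m a b + 1 else H.m a b) = _
      simp
    rw [hmab] at hpay
    have n1 := hc.nn a b
    have n2 := hc.nn b a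
    by_cases h1 : 1 ≤ p a b
    · exact reduce H Z {a, b} hTZ hE f p hc' a b ha hb' hab hfab h1 hpay (hO.msymm b a)
    · refine reduce H Z {a, b} hTZ hE f p hc' b a hb' ha (Ne.symm hab) (Ne.symm hfab) (by omega)
        ?_ (hO.msymm a b)
      rw [hO.msymm b a]
      omega

/-- the new system -/
def ext (H : Hub V) (a b y : V) : Hub V where
  c i v := if v = y then (if i then 1 else 0) else H.c i v
  r u v := if u = y ∨ v = y then 0 else H.r u v
  m u v := if u = y then (if v = a ∨ v = b then 1 else 0)
    else if v = y then (if u = a ∨ u = b then 1 else 0) else H.m u v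

theorem ext_ok (H : Hub V) (a b y : V) (hO : Ok P13 H) (ha : a ≠ y) (hb : b ≠ y) :
    Ok P13 (ext H a b y) := by
  refine ⟨?_, ?_, ?_, ?_, ?_, ?_, ?_, ?_, ?_⟩
  · intro i v
    show -1 ≤ if v = y then (if i then 1 else 0) else H.c i v
    have := hO.c_ge i v
    split_ifs <;> omega
  · intro v
    show (if v = y then (if true then (1 : ℤ) else 0) else H.c true v) ≤ P13.j
    have h1 := hO.c1_le v
    have h2 : P13.j = 1 := rfl
    split_ifs <;> omega
  · intro v
    show (if v = y then (if false then (1 : ℤ) else 0) else H.c false v) ≤ P13.k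
    have h1 := hO.c2_le v
    have h2 : P13.k = 3 := rfl
    simp only [Bool.false_eq_true, if_false]
    split_ifs <;> omega
  · intro u v
    show (if u = y ∨ v = y then 0 else H.r u v) = 0 ∨ (if u = y ∨ v = y then 0 else H.r u v) = 1
    have := hO.r01 u v
    split_ifs
    · left; rfl
    · exact this
  · intro u v
    show (if u = y ∨ v = y then 0 else H.r u v) = if v = y ∨ u = y then 0 else H.r v u
    have := hO.rsymm u v
    by_cases h : u = y ∨ v = y
    · rw [if_pos h, if_pos h.symm]
    · rw [if_neg h, if_neg (fun h' => h h'.symm)]; exact this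
  · intro v
    show (if v = y ∨ v = y then 0 else H.r v v) = 0
    have := hO.r0 v
    split_ifs
    · rfl
    · exact this
  · intro u v
    show 0 ≤ if u = y then (if v = a ∨ v = b then 1 else 0)
      else if v = y then (if u = a ∨ u = b then 1 else 0) else H.m u v
    have := hO.m_nn u v
    split_ifs <;> omega
  · intro u v
    show (if u = y then (if v = a ∨ v = b then 1 else 0)
      else if v = y then (if u = a ∨ u = b then 1 else 0) else H.m u v) =
      if v = y then (if u = a ∨ u = b then 1 else 0)
      else if u = y then (if v = a ∨ v = b then 1 else 0) else H.m v u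
    have := hO.msymm u v
    by_cases h1 : u = y
    · by_cases h2 : v = y
      · subst h1; subst h2; rfl
      · rw [if_pos h1, if_neg h2, if_pos h1]
    · by_cases h2 : v = y
      · rw [if_neg h1, if_pos h2, if_pos h2]
      · rw [if_neg h1, if_neg h2, if_neg h2, if_neg h1]; exact this
  · intro v
    show (if v = y then (if v = a ∨ v = b then 1 else 0)
      else if v = y then (if v = a ∨ v = b then 1 else 0) else H.m v v) = 0
    have := hO.m0 v
    by_cases h1 : v = y
    · subst h1
      rw [if_pos rfl, if_neg]
      rintro (h | h)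
      · exact ha h.symm
      · exact hb h.symm
    · rw [if_neg h1, if_neg h1]; exact this

theorem ext_rho (H : Hub V) (a b y : V) (C : Finset V) (hC : y ∉ C) :
    rho P13 (ext H a b y) C = rho P13 H C := by
  have hne : ∀ v ∈ C, v ≠ y := fun v hv h => hC (h ▸ hv)
  unfold rho
  congr 1
  · congr 1
    refine Finset.sum_congr rfl fun v hv => ?_
    show P13.a * ((if v = y then (if true then 1 else 0) else H.c true v) + 1) +
      P13.b * (if v = y then (if false then 1 else 0) else H.c false v) = _
    rw [if_neg (hne v hv), if_neg (hne v hv)]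
    rfl
  · refine Finset.sum_congr rfl fun u hu => Finset.sum_congr rfl fun v hv => ?_
    show P13.D * (if u = y ∨ v = y then 0 else H.r u v) +
      P13.a * (if u = y then (if v = a ∨ v = b then 1 else 0)
        else if v = y then (if u = a ∨ u = b then 1 else 0) else H.m u v) = _
    rw [if_neg (by rintro (h | h); exacts [hne u hu h, hne v hv h]), if_neg (hne u hu),
      if_neg (hne v hv)]
    rfl

theorem ext_eE (H : Hub V) (a b y : V) (Z : Finset V) (hy : y ∉ Z) :
    eE (ext H a b y) (insert y Z) = eE H Z := by
  have hne : ∀ v ∈ Z, v ≠ y := fun v hv h => hy (h ▸ hv)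
  unfold eE
  rw [Finset.sum_insert hy]
  have h1 : ∑ v ∈ insert y Z, (ext H a b y).r y v = 0 := by
    refine Finset.sum_eq_zero fun v _ => ?_
    show (if y = y ∨ v = y then 0 else H.r y v) = 0
    rw [if_pos (Or.inl rfl)]
  rw [h1, zero_add]
  refine Finset.sum_congr rfl fun u hu => ?_
  rw [Finset.sum_insert hy]
  have h2 : (ext H a b y).r u y = 0 := by
    show (if u = y ∨ y = y then 0 else H.r u y) = 0
    rw [if_pos (Or.inr rfl)]
  rw [h2, zero_add]
  refine Finset.sum_congr rfl fun v hv => ?_
  show (if u = y ∨ v = y then 0 else H.r u v) = H.r u v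
  rw [if_neg (by rintro (h | h); exacts [hne u hu h, hne v hv h])]

theorem ext_hp (hb : S3_base) (H : Hub V) (a b y : V) (Z : Finset V) (hO : Ok P13 H)
    (ha : a ≠ y) (hb' : b ≠ y) (hh : ∀ C, C ⊆ Z → C.Nonempty → 3 ≤ hp H C) :
    ∀ C, C ⊆ insert y Z → C.Nonempty → 3 ≤ hp (ext H a b y) C := by
  intro C hC hCn
  have hO1 := ext_ok H a b y hO ha hb'
  obtain ⟨-, c2, -, c4, -⟩ := hb V (ext H a b y) hO1
  have hsame : ∀ C, y ∉ C → hp (ext H a b y) C = hp H C := by
    intro C hC
    unfold hp
    rw [ext_rho H a b y C hC]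
  by_cases hyC : y ∈ C
  · have hsub : C.erase y ⊆ Z := by
      intro v hv
      rw [Finset.mem_erase] at hv
      rcases Finset.mem_insert.1 (hC hv.2) with h | h
      · exact absurd h hv.1
      · exact h
    have h10 : hp (ext H a b y) {y} = 10 := by
      rw [c4 y]
      show 5 * ((if y = y then (if true then (1 : ℤ) else 0) else H.c true y) + 1) +
        3 * (if y = y then (if false then (1 : ℤ) else 0) else H.c false y) = 10
      simp
    rcases (C.erase y).eq_empty_or_nonempty with he | hne
    · have : C = {y} := by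
        rw [← Finset.insert_erase hyC, he]
        rfl
      rw [this, h10]
      norm_num
    · have h1 : C = {y} ∪ C.erase y := by
        rw [Finset.singleton_union, Finset.insert_erase hyC]
      have hdis : Disjoint {y} (C.erase y) := by
        rw [Finset.disjoint_singleton_left]
        exact Finset.notMem_erase y C
      rw [h1, c2 _ _ hdis, h10, hsame _ (Finset.notMem_erase y C)]
      have h3 := hh _ hsub hne
      have h4 : rr (ext H a b y) {y} (C.erase y) = 0 := by
        unfold rr
        rw [Finset.sum_singleton]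
        refine Finset.sum_eq_zero fun v _ => ?_
        show (if y = y ∨ v = y then 0 else H.r y v) = 0
        rw [if_pos (Or.inl rfl)]
      have h5 : mm (ext H a b y) {y} (C.erase y) ≤ 2 := by
        unfold mm
        rw [Finset.sum_singleton]
        have h6 : ∀ v ∈ C.erase y, (ext H a b y).m y v =
            if v ∈ ({a, b} : Finset V) then (1 : ℤ) else 0 := by
          intro v _
          show (if y = y then (if v = a ∨ v = b then (1 : ℤ) else 0)
            else if v = y then (if y = a ∨ y = b then 1 else 0) else H.m y v) = _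
          rw [if_pos rfl]
          simp only [Finset.mem_insert, Finset.mem_singleton]
        rw [Finset.sum_congr rfl h6, ← Finset.sum_filter, Finset.sum_const, nsmul_eq_mul, mul_one]
        have h7 : ((C.erase y).filter fun v => v ∈ ({a, b} : Finset V)).card ≤ 2 := by
          refine le_trans (Finset.card_le_card (t := {a, b}) ?_) Finset.card_le_two
          intro v hv
          exact (Finset.mem_filter.1 hv).2
        exact_mod_cast h7
      rw [h4]
      omega
  · rw [hsame C hyC]
    refine hh C ?_ hCn
    intro v hv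
    rcases Finset.mem_insert.1 (hC hv) with h | h
    · exact absurd (h ▸ hv) hyC
    · exact h

theorem ext_one (H : Hub V) (a b y : V) (Z T : Finset V) (hO : Ok P13 H) (hTZ : T ⊆ Z)
    (hy : y ∉ Z) (haT : a ∈ T) (hbT : b ∈ T) (hab : a ≠ b) (hE : ExOne H Z T) :
    ExOne (ext H a b y) (insert y Z) (insert y ((T.erase a).erase b)) := by
  intro f p hc
  have hne : ∀ v ∈ Z, v ≠ y := fun v hv h => hy (h ▸ hv)
  have hcc : ∀ i, ∀ v ∈ Z, (ext H a b y).c i v = H.c i v := by
    intro i v hv
    show (if v = y then (if i then (1 : ℤ) else 0) else H.c i v) = _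
    rw [if_neg (hne v hv)]
  have hload : ∀ u ∈ Z, load (ext H a b y) (insert y Z) f p u =
      (if f u = f y then 0 else p u y) + load H Z f p u := by
    intro u hu
    unfold load
    rw [Finset.sum_insert hy]
    congr 1
    · have h2 : (ext H a b y).r u y = 0 := by
        show (if u = y ∨ y = y then 0 else H.r u y) = 0
        rw [if_pos (Or.inr rfl)]
      rw [h2]
    · refine Finset.sum_congr rfl fun v hv => ?_
      have h2 : (ext H a b y).r u v = H.r u v := by
        show (if u = y ∨ v = y then 0 else H.r u v) = H.r u v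
        rw [if_neg (by rintro (h | h); exacts [hne u hu h, hne v hv h])]
      rw [h2]
  have hge : ∀ u ∈ Z, load H Z f p u ≤ load (ext H a b y) (insert y Z) f p u := by
    intro u hu
    rw [hload u hu]
    have := hc.nn u y
    split_ifs <;> omega
  have hc' : ColBy H Z f p := by
    refine ⟨hc.nn, ?_, ?_⟩
    · intro u hu v hv huv
      have h1 := hc.pay u (Finset.mem_insert_of_mem hu) v (Finset.mem_insert_of_mem hv) huv
      have h2 : (ext H a b y).m u v = H.m u v := by
        show (if u = y then (if v = a ∨ v = b then (1 : ℤ) else 0)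
          else if v = y then (if u = a ∨ u = b then 1 else 0) else H.m u v) = _
        rw [if_neg (hne u hu), if_neg (hne v hv)]
      rw [← h2]
      exact h1
    · intro u hu
      have h1 := hc.cap u (Finset.mem_insert_of_mem hu)
      rw [hcc _ u hu] at h1
      exact (hge u hu).trans h1
  obtain ⟨⟨x0, hx0, hfx0, hux⟩, hsat⟩ := hE f p hc'
  have hpay0 : ∀ x ∈ T, f x ≠ f y → p x y = 0 := by
    intro x hx hxy
    have h1 := hc.cap x (Finset.mem_insert_of_mem (hTZ hx))
    rw [hcc _ x (hTZ hx), hload x (hTZ hx), if_neg hxy] at h1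
    have h2 := hsat x hx
    have h3 := hc.nn x y
    omega
  have hyp : ∀ x ∈ T, (x = a ∨ x = b) → f x ≠ f y → 1 ≤ p y x := by
    intro x hx hxab hxy
    have h1 := hc.pay y (Finset.mem_insert_self y Z) x (Finset.mem_insert_of_mem (hTZ hx))
      (Ne.symm hxy)
    have h2 : (ext H a b y).m y x = 1 := by
      show (if y = y then (if x = a ∨ x = b then (1 : ℤ) else 0)
        else if x = y then (if y = a ∨ y = b then 1 else 0) else H.m y x) = 1
      rw [if_pos rfl, if_pos hxab]
    rw [h2, hpay0 x hx hxy] at h1
    omega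
  -- load at `y`
  have hly : load (ext H a b y) (insert y Z) f p y =
      ∑ v ∈ Z, if f y = f v then 0 else p y v := by
    unfold load
    rw [Finset.sum_insert hy, if_pos rfl]
    have h2 : ∀ v, (ext H a b y).r y v = 0 := by
      intro v
      show (if y = y ∨ v = y then 0 else H.r y v) = 0
      rw [if_pos (Or.inl rfl)]
    rw [h2, zero_add]
    refine Finset.sum_congr rfl fun v _ => ?_
    rw [h2]
  have hlynn : ∀ W, W ⊆ Z → (∑ v ∈ W, if f y = f v then 0 else p y v) ≤
      load (ext H a b y) (insert y Z) f p y := by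
    intro W hW
    rw [hly]
    refine Finset.sum_le_sum_of_subset_of_nonneg hW fun v _ _ => ?_
    have := hc.nn y v
    split_ifs <;> omega
  have hcy := hc.cap y (Finset.mem_insert_self y Z)
  have hcyv : (ext H a b y).c (f y) y = if f y then 1 else 0 := by
    show (if y = y then (if f y then (1 : ℤ) else 0) else H.c (f y) y) = _
    rw [if_pos rfl]
  have hly0 : 0 ≤ load (ext H a b y) (insert y Z) f p y := by
    have := hlynn ∅ (Finset.empty_subset _)
    simpa using this
  have hly1 : ∀ x ∈ T, (x = a ∨ x = b) → f x ≠ f y →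
      1 ≤ load (ext H a b y) (insert y Z) f p y := by
    intro x hx hxab hxy
    have h1 := hlynn {x} (Finset.singleton_subset_iff.2 (hTZ hx))
    rw [Finset.sum_singleton, if_neg (Ne.symm hxy)] at h1
    exact (hyp x hx hxab hxy).trans h1
  have hsat1 : ∀ x ∈ T, (ext H a b y).c (f x) x ≤ load (ext H a b y) (insert y Z) f p x := by
    intro x hx
    rw [hcc _ x (hTZ hx)]
    exact (hsat x hx).trans (hge x (hTZ hx))
  -- the case that `a` or `b` is the true one
  have key : ∀ s t : V, s ∈ T → t ∈ T → s ≠ t → (s = a ∨ s = b) → (t = a ∨ t = b) →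
      (∀ z, z ∈ (T.erase a).erase b → z ≠ s) → x0 = s →
      (∃ x ∈ insert y ((T.erase a).erase b), f x = true ∧
        ∀ z ∈ insert y ((T.erase a).erase b), f z = true → z = x) ∧
      ∀ x ∈ insert y ((T.erase a).erase b), (ext H a b y).c (f x) x ≤
        load (ext H a b y) (insert y Z) f p x := by
    intro s t hs ht hst hsab htab hzs hx0s
    subst hx0s
    have hft : f t = false := by
      by_contra h
      rw [Bool.not_eq_false] at h
      exact hst (hux t ht h).symm
    have hfy : f y = true := by
      by_contra h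
      rw [Bool.not_eq_true] at h
      have h1 := hly1 x0 hs hsab (by rw [hfx0, h]; decide)
      rw [hcyv, h] at hcy
      simp only [Bool.false_eq_true, if_false] at hcy
      omega
    have h2 := hly1 t ht htab (by rw [hft, hfy]; decide)
    refine ⟨⟨y, Finset.mem_insert_self _ _, hfy, ?_⟩, ?_⟩
    · intro z hz hfz
      rcases Finset.mem_insert.1 hz with h | h
      · exact h
      · have hzT : z ∈ T := Finset.mem_of_mem_erase (Finset.mem_of_mem_erase h)
        exact absurd (hux z hzT hfz) (hzs z h)
    · intro z hz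
      rcases Finset.mem_insert.1 hz with h | h
      · subst h
        rw [hcyv, hfy]
        simpa using h2
      · exact hsat1 z (Finset.mem_of_mem_erase (Finset.mem_of_mem_erase h))
  by_cases h1 : x0 = a
  · exact key a b haT hbT hab (Or.inl rfl) (Or.inr rfl)
      (fun z hz => Finset.ne_of_mem_erase (Finset.mem_of_mem_erase hz)) h1
  by_cases h2 : x0 = b
  · exact key b a hbT haT (Ne.symm hab) (Or.inr rfl) (Or.inl rfl)
      (fun z hz => Finset.ne_of_mem_erase hz) h2
  have hfa : f a = false := by
    by_contra h
    rw [Bool.not_eq_false] at h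
    exact h1 (hux a haT h).symm
  have hfb : f b = false := by
    by_contra h
    rw [Bool.not_eq_false] at h
    exact h2 (hux b hbT h).symm
  have hfy : f y = false := by
    by_contra h
    rw [Bool.not_eq_false] at h
    have e1 := hyp a haT (Or.inl rfl) (by rw [hfa, h]; decide)
    have e2 := hyp b hbT (Or.inr rfl) (by rw [hfb, h]; decide)
    have e3 := hlynn {a, b} (by
      intro v hv
      rcases Finset.mem_insert.1 hv with h | h
      · rw [h]; exact hTZ haT
      · rw [Finset.mem_singleton.1 h]; exact hTZ hbT)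
    rw [Finset.sum_pair hab, if_neg (by rw [hfa, h]; decide), if_neg (by rw [hfb, h]; decide)] at e3
    rw [hcyv, h] at hcy
    simp only [if_true] at hcy
    omega
  refine ⟨⟨x0, Finset.mem_insert_of_mem (Finset.mem_erase.2 ⟨h2, Finset.mem_erase.2 ⟨h1, hx0⟩⟩),
    hfx0, ?_⟩, ?_⟩
  · intro z hz hfz
    rcases Finset.mem_insert.1 hz with h | h
    · subst h
      rw [hfy] at hfz
      exact absurd hfz (by decide)
    · exact hux z (Finset.mem_of_mem_erase (Finset.mem_of_mem_erase h)) hfz
  · intro z hz
    rcases Finset.mem_insert.1 hz with h | h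
    · subst h
      rw [hcyv, hfy]
      simpa using hly0
    · exact hsat1 z (Finset.mem_of_mem_erase (Finset.mem_of_mem_erase h))

theorem G3 (hb : S3_base) : S3_G := by
  intro V _ _ H Z T hO hTZ hT hh hE
  obtain ⟨n, hn⟩ : ∃ n, T.card = n + 2 := ⟨T.card - 2, by omega⟩
  have main : ∀ (n : ℕ) (H : Hub V) (Z T : Finset V), Ok P13 H → T ⊆ Z → T.card = n + 2 →
      (∀ C, C ⊆ Z → C.Nonempty → 3 ≤ hp H C) → ExOne H Z T → Goal H Z := by
    intro n
    induction n with
    | zero =>
      intro H Z T hO hTZ hT hh hE
      exact base hb H Z T hO hTZ hT hh hE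
    | succ n ih =>
      intro H Z T hO hTZ hT hh hE
      obtain ⟨a, haT, b, hbT, hab⟩ := Finset.one_lt_card.1 (show 1 < T.card by omega)
      obtain ⟨y, hy⟩ := Infinite.exists_notMem_finset Z
      have hay : a ≠ y := fun h => hy (h ▸ hTZ haT)
      have hby : b ≠ y := fun h => hy (h ▸ hTZ hbT)
      have hcard : (insert y ((T.erase a).erase b)).card = n + 2 := by
        rw [Finset.card_insert_of_notMem, Finset.card_erase_of_mem, Finset.card_erase_of_mem haT]
        · omega
        · exact Finset.mem_erase.2 ⟨Ne.symm hab, hbT⟩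
        · intro h
          exact hy (hTZ (Finset.mem_of_mem_erase (Finset.mem_of_mem_erase h)))
      have hsub : insert y ((T.erase a).erase b) ⊆ insert y Z :=
        Finset.insert_subset_insert y (((Finset.erase_subset _ _).trans
          (Finset.erase_subset _ _)).trans hTZ)
      obtain ⟨H', S', g1, g2, g3, g4⟩ := ih (ext H a b y) (insert y Z)
        (insert y ((T.erase a).erase b)) (ext_ok H a b y hO hay hby) hsub hcard
        (ext_hp hb H a b y Z hO hay hby hh) (ext_one H a b y Z T hO hTZ hy haT hbT hab hE)
      exact ⟨H', S', g1, g2, g3, g4.trans (ext_eE H a b y Z hy)⟩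
  exact main n H Z T hO hTZ hn hh hE

end Pool.Agent.N724.DF
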